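import Pool.Agent.Helper61.QE.St5

/-!
# Project QD, PART E (MP_d112a4_gt): module EUP, upper bound of the energy
-/

open MeasureTheory Set Filter Topology Complex
open scoped ContDiff ComplexConjugate ENNReal

namespace Pool.Agent.Helper66.QE

open Pool.Agent.Helper68.QC Pool.Agent.Helper61.QE

private theorem tail_bound (c : ℝ) (hc : 0 < c) (η : ℂ) (hη : c ≤ ‖η‖) :
    ‖η‖⁻¹ ^ 4 ≤ (1 + 1 / c) ^ 4 * (1 + ‖η‖) ^ (-(4 : ℝ)) := by
  have h1 : 0 < ‖η‖ := hc.trans_le hη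
  have h2 : (1 + ‖η‖) ^ (-(4 : ℝ)) = ((1 + ‖η‖) ^ 4)⁻¹ := by
    rw [Real.rpow_neg (by positivity)]
    norm_cast
  rw [h2, ← inv_pow, ← mul_pow]
  apply pow_le_pow_left₀ (by positivity)
  rw [← div_eq_mul_inv, le_div_iff₀ (by positivity), inv_mul_eq_div, div_le_iff₀ h1]
  have h3 : 1 / c * ‖η‖ ≥ 1 := by
    rw [ge_iff_le, one_div, inv_mul_eq_div, le_div_iff₀ hc]
    linarith
  nlinarith

private theorem tail_fin (c : ℝ) (hc : 0 < c) : ∃ K : ℝ, 0 < K ∧ ∀ a : ℂ,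
    ∫⁻ ξ in {ξ : ℂ | c ≤ ‖ξ - a‖}, ENNReal.ofReal (‖ξ - a‖⁻¹ ^ 4) ≤ ENNReal.ofReal K := by
  have hfin : ∫⁻ η : ℂ, ENNReal.ofReal ((1 + ‖η‖) ^ (-(4 : ℝ))) < ⊤ :=
    finite_integral_one_add_norm (E := ℂ) (μ := volume) (r := 4) (by rw [Complex.finrank_real_complex]; norm_num)
  set I : ℝ≥0∞ := ∫⁻ η : ℂ, ENNReal.ofReal ((1 + ‖η‖) ^ (-(4 : ℝ))) with hI
  refine ⟨(1 + 1 / c) ^ 4 * (I.toReal + 1), by positivity, ?_⟩
  intro a
  have hm : MeasurableSet {ξ : ℂ | c ≤ ‖ξ - a‖} :=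
    measurableSet_le measurable_const (measurable_id.sub_const a).norm
  calc ∫⁻ ξ in {ξ : ℂ | c ≤ ‖ξ - a‖}, ENNReal.ofReal (‖ξ - a‖⁻¹ ^ 4)
      ≤ ∫⁻ ξ in {ξ : ℂ | c ≤ ‖ξ - a‖}, ENNReal.ofReal ((1 + 1 / c) ^ 4 * (1 + ‖ξ - a‖) ^ (-(4 : ℝ))) := by
        apply setLIntegral_mono' hm
        intro ξ hξ
        exact ENNReal.ofReal_le_ofReal (tail_bound c hc _ hξ)
    _ ≤ ∫⁻ ξ : ℂ, ENNReal.ofReal ((1 + 1 / c) ^ 4 * (1 + ‖ξ - a‖) ^ (-(4 : ℝ))) := setLIntegral_le_lintegral _ _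
    _ = ENNReal.ofReal ((1 + 1 / c) ^ 4) * I := by
        have h1 : ∀ ξ : ℂ, ENNReal.ofReal ((1 + 1 / c) ^ 4 * (1 + ‖ξ - a‖) ^ (-(4 : ℝ))) =
            ENNReal.ofReal ((1 + 1 / c) ^ 4) * ENNReal.ofReal ((1 + ‖ξ - a‖) ^ (-(4 : ℝ))) := fun ξ =>
          ENNReal.ofReal_mul (by positivity)
        simp only [h1]
        rw [lintegral_const_mul' _ _ ENNReal.ofReal_ne_top,
          lintegral_sub_right_eq_self (fun η : ℂ => ENNReal.ofReal ((1 + ‖η‖) ^ (-(4 : ℝ)))) a]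
    _ ≤ ENNReal.ofReal ((1 + 1 / c) ^ 4 * (I.toReal + 1)) := by
        rw [ENNReal.ofReal_mul (by positivity)]
        apply mul_le_mul_right
        calc I = ENNReal.ofReal I.toReal := (ENNReal.ofReal_toReal hfin.ne).symm
          _ ≤ ENNReal.ofReal (I.toReal + 1) := ENNReal.ofReal_le_ofReal (by linarith)

theorem pEUP (hGRW : StGRW) (hSWP : StSWP) : StEUP := by
  intro Γ _ s F hs hF
  obtain ⟨r₀, hr₀, hFr₀⟩ := hF.cpt
  obtain ⟨r, hr0, hr1, hFr⟩ : ∃ r : ℝ, 0 < r ∧ r < 1 ∧ ∀ z ∈ F, ‖z‖ ≤ r :=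
    ⟨max r₀ (1 / 2), by positivity, max_lt hr₀ (by norm_num), fun z hz => (hFr₀ z hz).trans (le_max_left _ _)⟩
  have hc0 : 0 < (1 / r - 1) ^ 2 * r / 4 := by
    have h1 : 0 < 1 / r - 1 := by
      rw [sub_pos, lt_div_iff₀ hr0]
      linarith
    positivity
  obtain ⟨K, hK, hKb⟩ := tail_fin _ hc0
  refine ⟨K, hK, ?_⟩
  intro G R hG hR
  rw [hSWP Γ s F G R hs hF hR]
  have hmeas : Measurable (fun p : ℂ × ℂ => ENNReal.ofReal (‖p.1 - p.2‖⁻¹ ^ 4)) := by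
    fun_prop
  rw [lintegral_lintegral_swap hmeas.aemeasurable]
  have hGD : MeasurableSet (G '' D) := (G.isOpenMap D Metric.isOpen_ball).measurableSet
  calc ∫⁻ a in G '' D, ∫⁻ ξ in G '' (rf '' (F \ {0})), ENNReal.ofReal (‖ξ - a‖⁻¹ ^ 4)
      ≤ ∫⁻ a in G '' D, ENNReal.ofReal K := by
        apply setLIntegral_mono' hGD
        rintro a ⟨w, hw, rfl⟩
        refine le_trans (lintegral_mono_set ?_) (hKb (G w))
        rintro ξ ⟨z', ⟨z, ⟨hzF, hz0⟩, rfl⟩, rfl⟩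
        have hz00 : z ≠ 0 := hz0
        have hzn : 0 < ‖z‖ := norm_pos_iff.2 hz00
        have hrf : ‖rf z‖ = 1 / ‖z‖ := by
          unfold rf
          rw [norm_div, norm_one, RCLike.norm_conj]
        have hge : 1 / r ≤ ‖rf z‖ := by
          rw [hrf]
          exact one_div_le_one_div_of_le hzn (hFr z hzF)
        have h1r : 1 < 1 / r := by
          rw [lt_div_iff₀ hr0]
          linarith
        have hw1 : ‖w‖ ≤ 1 := by
          have : ‖w‖ < 1 := by simpa using hw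
          exact this.le
        have h := (hGRW 1 G hG).2.2.1 (rf z) (h1r.trans_le hge) w hw1
        show (1 / r - 1) ^ 2 * r / 4 ≤ ‖G (rf z) - G w‖
        set t : ℝ := ‖rf z‖ with ht
        have ht0 : 0 < t := by linarith
        have hmono : (1 / r - 1) ^ 2 * r ≤ (t - 1) ^ 2 / t := by
          rw [le_div_iff₀ ht0]
          have e1 : (1 / r - 1) ^ 2 * r = 1 / r - 2 + r := by
            field_simp
            ring
          rw [e1]
          have h3 : (t - 1) ^ 2 - (1 / r - 2 + r) * t = (t - 1 / r) * (t - r) := by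
            field_simp
            ring
          have h4 : 0 ≤ (t - 1 / r) * (t - r) := mul_nonneg (by linarith) (by linarith)
          linarith
        linarith
    _ = ENNReal.ofReal K * volume (G '' D) := setLIntegral_const _ _

end Pool.Agent.Helper66.QE
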