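import Pool.Agent.Helper61.QE.St1
import Pool.Agent.Helper39.QM.M_Slit
import Pool.Agent.Helper39.QM.M_Grow
import Pool.Agent.Helper79.QD.M_RIJ

/-!
# Project QD, PART E (MP_d112a4_gt): module GRW, Koebe bounds
-/

open MeasureTheory Set Filter Topology Complex
open scoped ContDiff ComplexConjugate ENNReal

namespace Pool.Agent.Helper66.QE

open Pool.Agent.Helper68.QC Pool.Agent.Helper61.QE

private theorem bieb {g : ℂ → ℂ} (hg : Pool.Agent.Helper64.C3.ClassS g) :
    ‖Pool.Agent.Helper64.C3.coeff 2 g‖ ≤ 2 := by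
  obtain ⟨hd, hi, h0, h1⟩ := hg
  have h := Helper80.Bieb.bieberbach hd hi h0 h1
  unfold Pool.Agent.Helper64.C3.coeff
  rw [iteratedDeriv_succ, iteratedDeriv_one, norm_div]
  simp only [Nat.factorial_two, Nat.cast_ofNat, Complex.norm_two]
  linarith

theorem pGRW (hPGH : StPGH) : StGRW := by
  intro M G hG
  obtain ⟨⟨P', hP', -⟩, hP0, -⟩ := hPGH.1 G hG.zero
  have hPc : Continuous (PG G) := by
    rw [← hP']
    exact P'.continuous
  have hPi : Function.Injective (PG G) := by
    rw [← hP']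
    exact P'.injective
  have hPne : ∀ u, u ≠ 0 → PG G u ≠ 0 := by
    intro u hu h
    apply hu
    apply hPi
    rw [h, hP0]
  have hDx : IsOpen Dx := isOpen_lt continuous_const continuous_norm
  have hinvDx : ∀ u ∈ D, u ≠ 0 → u⁻¹ ∈ Dx := by
    intro u hu hu0
    have h1 : ‖u‖ < 1 := by simpa using hu
    show 1 < ‖u⁻¹‖
    rw [norm_inv]
    exact (one_lt_inv₀ (norm_pos_iff.2 hu0)).2 h1
  have hGne : ∀ z, z ≠ 0 → G z ≠ 0 := by
    intro z hz h
    apply hz
    apply G.injective
    rw [h, hG.zero]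
  -- holomorphic
  have hPd0 : ∀ u ∈ D, u ≠ 0 → DifferentiableAt ℂ (PG G) u := by
    intro u hu hu0
    have h1 : DifferentiableAt ℂ G u⁻¹ := hG.hol.differentiableAt (hDx.mem_nhds (hinvDx u hu hu0))
    have h2 : DifferentiableAt ℂ (fun v : ℂ => G v⁻¹) u := by
      have h3 : DifferentiableAt ℂ (fun v : ℂ => v⁻¹) u := differentiableAt_inv hu0
      exact DifferentiableAt.comp u h1 h3
    exact h2.inv (hGne _ (inv_ne_zero hu0))
  have hD0 : D ∈ 𝓝 (0 : ℂ) := Metric.ball_mem_nhds 0 one_pos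
  have hPd : DifferentiableOn ℂ (PG G) D := by
    intro u hu
    apply DifferentiableAt.differentiableWithinAt
    by_cases hu0 : u = 0
    · rw [hu0]
      have hev : ∀ᶠ z in 𝓝[≠] (0 : ℂ), DifferentiableAt ℂ (PG G) z := by
        filter_upwards [nhdsWithin_le_nhds hD0, self_mem_nhdsWithin] with z hz hz0
        exact hPd0 z hz hz0
      exact (Complex.analyticAt_of_differentiable_on_punctured_nhds_of_continuousAt hev
        hPc.continuousAt).differentiableAt
    · exact hPd0 u hu hu0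
  have hPinj : InjOn (PG G) D := hPi.injOn
  have h0D : (0 : ℂ) ∈ D := Metric.mem_ball_self one_pos
  have hp : deriv (PG G) 0 ≠ 0 :=
    (Pool.Agent.Helper79.QD.hRIJ D (PG G) Metric.isOpen_ball hPd hPinj).1 0 h0D
  set p : ℂ := deriv (PG G) 0 with hpdef
  have hPat : HasDerivAt (PG G) p 0 := (hPd.differentiableAt hD0).hasDerivAt
  -- omitted values: `ξ * P u ≠ 1`
  have homit : ∀ w, ‖w‖ ≤ 1 → ∀ u ∈ D, 1 - G w * PG G u ≠ 0 := by
    intro w hw u hu h
    have h1 : G w * PG G u = 1 := by linear_combination -h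
    by_cases hu0 : u = 0
    · rw [hu0, hP0, mul_zero] at h1
      exact zero_ne_one h1
    · have h2 : PG G u = (G u⁻¹)⁻¹ := rfl
      have h3 := hGne _ (inv_ne_zero hu0)
      rw [h2, mul_inv_eq_one₀ h3] at h1
      have h4 := G.injective h1
      have h5 : 1 < ‖u⁻¹‖ := hinvDx u hu hu0
      rw [← h4] at h5
      linarith
  -- class S
  have hS : ∀ w, ‖w‖ ≤ 1 → Pool.Agent.Helper64.C3.ClassS (fun u => PG G u / (p * (1 - G w * PG G u))) := by
    intro w hw
    have hne : ∀ u ∈ D, p * (1 - G w * PG G u) ≠ 0 := fun u hu => mul_ne_zero hp (homit w hw u hu)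
    refine ⟨?_, ?_, ?_, ?_⟩
    · exact hPd.div ((hPd.const_mul (G w)).const_sub 1 |>.const_mul p) hne
    · intro u hu v hv huv
      have h1 : PG G u / (p * (1 - G w * PG G u)) = PG G v / (p * (1 - G w * PG G v)) := huv
      rw [div_eq_div_iff (hne u hu) (hne v hv)] at h1
      apply hPi
      apply mul_left_cancel₀ hp
      linear_combination h1
    · show PG G 0 / (p * (1 - G w * PG G 0)) = 0
      rw [hP0, zero_div]
    · have h1 : HasDerivAt (fun u => p * (1 - G w * PG G u)) (p * (-(G w * p))) 0 := by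
        have := ((hPat.const_mul (G w)).const_sub 1).const_mul p
        exact this
      have h2 := hPat.div h1 (hne 0 h0D)
      have h3 : HasDerivAt (fun u => PG G u / (p * (1 - G w * PG G u)))
          ((p * (p * (1 - G w * PG G 0)) - PG G 0 * (p * (-(G w * p)))) / (p * (1 - G w * PG G 0)) ^ 2) 0 := h2
      rw [h3.deriv, hP0]
      field_simp
      ring
  -- the bound of the derivative
  obtain ⟨q, hq1, hq⟩ := hG.one
  have hS0 := hS 0 (by simp)
  have hp4 : ‖p‖ ≤ 4 := by
    have h1 := Pool.Agent.Helper39.QM.omit_value _ hS0 p⁻¹ (inv_ne_zero hp) (by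
      intro u hu h
      have h2 : PG G u / (p * (1 - G 0 * PG G u)) = p⁻¹ := h
      rw [hG.zero, zero_mul, sub_zero, mul_one] at h2
      have h3 : PG G u = 1 := by
        field_simp at h2
        exact h2
      have h4 := homit q hq1 u hu
      rw [hq, h3] at h4
      simp at h4)
    rw [inv_inv] at h1
    have h2 := bieb hS0
    have h3 := norm_sub_le (p + Pool.Agent.Helper64.C3.coeff 2 (fun u => PG G u / (p * (1 - G 0 * PG G u))))
      (Pool.Agent.Helper64.C3.coeff 2 (fun u => PG G u / (p * (1 - G 0 * PG G u))))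
    rw [add_sub_cancel_right] at h3
    linarith
  -- maximum principle
  have hds : ∀ u, dslope (PG G) 0 u ≠ 0 := by
    intro u
    by_cases hu0 : u = 0
    · rw [hu0, dslope_same]
      exact hp
    · rw [dslope_of_ne _ hu0, slope_def_field, hP0, sub_zero, sub_zero]
      exact div_ne_zero (hPne u hu0) hu0
  have hdc : Continuous (dslope (PG G) 0) := by
    rw [continuous_iff_continuousAt]
    intro u
    by_cases hu0 : u = 0
    · rw [hu0, continuousAt_dslope_same]
      exact hPat.differentiableAt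
    · rw [continuousAt_dslope_of_ne hu0]
      exact hPc.continuousAt
  have hdd : DifferentiableOn ℂ (dslope (PG G) 0) D := (Complex.differentiableOn_dslope hD0).2 hPd
  have hmax : ∀ u, ‖u‖ ≤ 1 → ‖(dslope (PG G) 0 u)⁻¹‖ ≤ M := by
    intro u hu
    refine Complex.norm_le_of_forall_mem_frontier_norm_le (f := fun v => (dslope (PG G) 0 v)⁻¹)
      Metric.isBounded_ball (U := D) ⟨hdd.inv fun v _ => hds v, (hdc.inv₀ hds).continuousOn⟩ ?_ ?_
    · intro v hv
      rw [frontier_ball _ one_ne_zero, mem_sphere_zero_iff_norm] at hv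
      have hv0 : v ≠ 0 := by
        intro h
        rw [h, norm_zero] at hv
        exact zero_ne_one hv
      show ‖(dslope (PG G) 0 v)⁻¹‖ ≤ M
      rw [dslope_of_ne _ hv0, slope_def_field, hP0, sub_zero, sub_zero, inv_div, norm_div, hv]
      show 1 / ‖(G v⁻¹)⁻¹‖ ≤ M
      rw [norm_inv, one_div, inv_inv]
      apply hG.le
      rw [norm_inv, hv, inv_one]
    · rw [closure_ball _ one_ne_zero]
      simpa using hu
  have hpM : M⁻¹ ≤ ‖p‖ := by
    have h1 := hmax 0 (by simp)
    rw [dslope_same, norm_inv] at h1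
    have h2 : 0 < ‖p‖ := norm_pos_iff.2 hp
    exact inv_le_of_inv_le₀ h2 h1
  have hM1 : 1 ≤ M := by
    have := hG.le q hq1
    rwa [hq, norm_one] at this
  refine ⟨⟨hPd, hPinj, hP0, hM1, hpM, hp4⟩, ?_, ?_, ?_⟩
  · intro z hz
    have hz1 : 1 < ‖z‖ := hz
    have hz0 : z ≠ 0 := by
      intro h
      rw [h, norm_zero] at hz1
      linarith
    have h1 := hmax z⁻¹ (by
      rw [norm_inv]
      exact inv_le_one_of_one_le₀ hz1.le)
    rw [dslope_of_ne _ (inv_ne_zero hz0), slope_def_field, hP0, sub_zero, sub_zero, inv_div] at h1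
    have h2 : PG G z⁻¹ = (G z)⁻¹ := by
      unfold PG
      rw [inv_inv]
    rw [h2, div_inv_eq_mul, norm_mul, norm_inv, inv_mul_le_iff₀ (by linarith)] at h1
    linarith
  · intro z hz w hw
    have hz1 : 1 < ‖z‖ := hz
    have hz0 : z ≠ 0 := by
      intro h
      rw [h, norm_zero] at hz1
      linarith
    have hzi : ‖z⁻¹‖ < 1 := by
      rw [norm_inv]
      exact inv_lt_one_of_one_lt₀ hz1
    have h1 := Pool.Agent.Helper39.QM.grow _ (hS w hw) z⁻¹ hzi
    have h2 : PG G z⁻¹ = (G z)⁻¹ := by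
      unfold PG
      rw [inv_inv]
    have hGz : G z ≠ 0 := hGne z hz0
    have hne := homit w hw z⁻¹ (by simpa using hzi)
    rw [h2] at hne
    have hsub : G z - G w ≠ 0 := by
      intro h
      apply hne
      have : G w = G z := by linear_combination -h
      rw [this, mul_inv_cancel₀ hGz, sub_self]
    have h3 : PG G z⁻¹ / (p * (1 - G w * PG G z⁻¹)) = 1 / (p * (G z - G w)) := by
      rw [h2, div_eq_div_iff (mul_ne_zero hp hne) (mul_ne_zero hp hsub)]
      field_simp
    simp only [h3] at h1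
    rw [norm_div, norm_one, norm_mul, norm_inv] at h1
    have hn : 0 < ‖G z - G w‖ := norm_pos_iff.2 hsub
    have hpn : 0 < ‖p‖ := norm_pos_iff.2 hp
    have hzn : 0 < ‖z‖ := by linarith
    have h4 : (1 - ‖z‖⁻¹) ^ 2 = (‖z‖ - 1) ^ 2 / ‖z‖ ^ 2 := by
      field_simp
    rw [h4, one_div, inv_mul_le_iff₀ (by positivity)] at h1
    rw [div_le_iff₀ hzn]
    rw [div_le_iff₀ (by positivity)] at h1
    have h5 : ‖p‖ * ‖G z - G w‖ * ‖z‖⁻¹ * ‖z‖ ^ 2 = ‖p‖ * ‖G z - G w‖ * ‖z‖ := by
      field_simp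
    rw [h5] at h1
    calc (‖z‖ - 1) ^ 2 ≤ ‖p‖ * ‖G z - G w‖ * ‖z‖ := h1
      _ ≤ 4 * ‖G z - G w‖ * ‖z‖ := by gcongr
  · intro u hu
    have hu1 : ‖u‖ < 1 := by simpa using hu
    have h1 := Pool.Agent.Helper39.QM.grow _ hS0 u hu1
    simp only [hG.zero, zero_mul, sub_zero, mul_one] at h1
    rw [norm_div, div_mul_eq_mul_div, div_le_iff₀ (norm_pos_iff.2 hp)] at h1
    refine h1.trans ?_
    rw [mul_comm]
    exact mul_le_mul_of_nonneg_right hp4 (norm_nonneg _)

end Pool.Agent.Helper66.QE
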