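import Pool.Agent.Helper61.QE.St1

/-!
# Project QD, PART E (MP_d112a4_gt): module SUM, the sum of the inverse fourth powers
-/

open MeasureTheory Set Filter Topology Complex
open scoped ContDiff ComplexConjugate ENNReal

namespace Pool.Agent.Helper66.QE

open Pool.Agent.Helper68.QC Pool.Agent.Helper61.QE

private theorem vball (p : ℂ) (r : ℝ) (hr : 0 ≤ r) :
    volume (Metric.ball p r) = ENNReal.ofReal (r ^ 2 * Real.pi) := by
  rw [Complex.volume_ball, ENNReal.ofReal_mul (by positivity), ENNReal.ofReal_pow hr]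
  congr 1
  rw [← NNReal.coe_real_pi, ENNReal.ofReal_coe_nnreal]

private theorem vcball (p : ℂ) (r : ℝ) (hr : 0 ≤ r) :
    volume (Metric.closedBall p r) = ENNReal.ofReal (r ^ 2 * Real.pi) := by
  rw [Complex.volume_closedBall, ENNReal.ofReal_mul (by positivity), ENNReal.ofReal_pow hr]
  congr 1
  rw [← NNReal.coe_real_pi, ENNReal.ofReal_coe_nnreal]

theorem pSUM (hSUB : StSUB) (hGRW : StGRW) (hFUX : StFUX) (hMBF : StMBF) (hENT : StENT) : StSUM := by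
  intro Γ _ s hs
  obtain ⟨-, -, ρ0, hρ, hfu⟩ := hFUX Γ s hs
  have hρ0 : 0 < ρ0 := by linarith
  have hρC : ρ0 ≤ 4 * ρ0 ^ 4 := by
    have h1 : 1 ≤ ρ0 ^ 3 := one_le_pow₀ hρ.le
    nlinarith
  refine ⟨4 * ρ0 ^ 4, by positivity, ?_⟩
  intro G hG R hR
  -- the growth bound
  have hgr : ∀ z : ℂ, ‖G z‖ ≤ max 1 ‖z‖ := by
    intro z
    by_cases hz : 1 < ‖z‖
    · have h := (hGRW 1 G hG).2.1 z hz
      rw [one_mul] at h
      exact h.trans (le_max_right _ _)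
    · exact (hG.le z (not_lt.1 hz)).trans (le_max_left _ _)
  have hbasic : ∀ γ : Γ, γ ≠ 1 → R γ 1 0 ≠ 0 ∧ ‖pl (R γ)‖ ≤ ρ0 ∧ ‖cn (R γ)‖ ≤ ρ0 := by
    intro γ hγ
    obtain ⟨h10, hcn1, hcn2, hpl, -⟩ := hfu γ hγ
    obtain ⟨C', hC', hE⟩ := hENT (s γ) (hs.su γ) h10 1
    obtain ⟨-, hc, hcn, hp⟩ := hE G hG (R γ) (hR γ)
    refine ⟨?_, ?_, ?_⟩
    · intro h0
      rw [h0, norm_zero] at hc
      have : 0 < C'⁻¹ := inv_pos.2 hC'
      linarith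
    · rw [hp]
      refine (hgr _).trans (max_le hρ.le ?_)
      rw [hpl]
      exact hcn2
    · rw [hcn]
      exact (hgr _).trans (max_le hρ.le hcn2)
  refine ⟨?_, ?_⟩
  · intro γ hγ
    obtain ⟨h1, h2, h3⟩ := hbasic γ hγ
    exact ⟨h1, h2.trans hρC, h3.trans hρC⟩
  intro T hT
  have hT1 : ∀ γ ∈ T, γ ≠ 1 := by
    intro γ hγ h
    rw [h] at hγ
    exact hT hγ
  let r : Γ → ℝ := fun γ => 1 / (2 * ρ0 * ‖R γ 1 0‖ ^ 2)
  have hr0 : ∀ γ, 0 ≤ r γ := fun γ => by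
    show 0 ≤ 1 / (2 * ρ0 * ‖R γ 1 0‖ ^ 2)
    positivity
  let Bs : Γ → Set ℂ := fun γ => Metric.ball (pl (R γ)) (r γ) \ {pl (R γ)}
  -- key: points of the punctured ball are sent outside
  have key : ∀ γ, γ ≠ 1 → ∀ ξ ∈ Bs γ, den (s γ) (G.symm ξ) ≠ 0 ∧ ρ0 < ‖mob (s γ) (G.symm ξ)‖ := by
    intro γ hγ ξ hξ
    obtain ⟨hc, hp, hq⟩ := hbasic γ hγ
    have hξ1 : ‖ξ - pl (R γ)‖ < r γ := by
      have := hξ.1
      rwa [Metric.mem_ball, dist_eq_norm] at this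
    have hξ2 : ξ ≠ pl (R γ) := hξ.2
    have hcn : 0 < ‖R γ 1 0‖ := norm_pos_iff.2 hc
    have hd0 : 0 < ‖ξ - pl (R γ)‖ := norm_pos_iff.2 (sub_ne_zero.2 hξ2)
    obtain ⟨m1, m2, -, -, -, -⟩ := hMBF (R γ) hc
    have hden : den (R γ) ξ ≠ 0 := by
      rw [m1]
      exact mul_ne_zero hc (sub_ne_zero.2 hξ2)
    obtain ⟨i1, i2, -, -⟩ := hR γ
    have hGw : G (G.symm ξ) = ξ := G.apply_symm_apply ξ
    have hdw : den (s γ) (G.symm ξ) ≠ 0 := by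
      intro h
      have := (i1 (G.symm ξ)).1 h
      rw [hGw] at this
      exact hden this
    have hmob := i2 (G.symm ξ) hdw
    rw [hGw] at hmob
    have hbig : 2 * ρ0 < ‖mob (R γ) ξ - cn (R γ)‖ := by
      rw [m2 ξ hξ2, norm_div, norm_neg, norm_one, norm_mul, norm_pow, lt_div_iff₀ (by positivity)]
      have h1 : ‖ξ - pl (R γ)‖ * (2 * ρ0 * ‖R γ 1 0‖ ^ 2) < 1 := by
        have h2 : ‖ξ - pl (R γ)‖ < 1 / (2 * ρ0 * ‖R γ 1 0‖ ^ 2) := hξ1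
        rwa [lt_div_iff₀ (by positivity)] at h2
      linarith
    have hbig2 : ρ0 < ‖mob (R γ) ξ‖ := by
      have h1 := norm_sub_le (mob (R γ) ξ) (cn (R γ))
      linarith
    refine ⟨hdw, ?_⟩
    rw [← hmob] at hbig2
    rcases le_max_iff.1 (hgr (mob (s γ) (G.symm ξ))) with h | h
    · linarith
    · linarith
  have hin : ∀ γ ∈ T, Bs γ ⊆ Metric.closedBall 0 ρ0 := by
    intro γ hγT ξ hξ
    have hγ := hT1 γ hγT
    obtain ⟨hd, hz⟩ := key γ hγ ξ hξ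
    have hinv : γ⁻¹ ≠ 1 := inv_ne_one.2 hγ
    obtain ⟨-, -, -, -, hf⟩ := hfu γ⁻¹ hinv
    have h1 := (hf _ hz).2
    rw [map_inv, (hSUB.2.2.2.2.2.2.2.2.2 (s γ) (G.symm ξ) hd).1] at h1
    rw [mem_closedBall_zero_iff]
    have h2 := hgr (G.symm ξ)
    rw [G.apply_symm_apply] at h2
    exact h2.trans (max_le hρ.le h1)
  have hdis : (T : Set Γ).PairwiseDisjoint Bs := by
    intro γ hγT δ hδT hne
    rw [Function.onFun, Set.disjoint_left]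
    intro ξ hξ hξ'
    have hγ := hT1 γ hγT
    have hδ := hT1 δ hδT
    obtain ⟨hd, hz⟩ := key γ hγ ξ hξ
    obtain ⟨-, hz'⟩ := key δ hδ ξ hξ'
    have hne' : δ * γ⁻¹ ≠ 1 := by
      intro h
      exact hne (mul_inv_eq_one.1 h).symm
    obtain ⟨-, -, -, -, hf⟩ := hfu _ hne'
    have h1 := (hf _ hz).2
    rw [← (hSUB.1 (s (δ * γ⁻¹)) (s γ) (G.symm ξ) hd).2, ← map_mul, inv_mul_cancel_right] at h1
    linarith
  have hBm : ∀ γ, MeasurableSet (Bs γ) := fun γ => measurableSet_ball.diff (measurableSet_singleton _)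
  have hBv : ∀ γ, volume (Bs γ) = ENNReal.ofReal (r γ ^ 2 * Real.pi) := by
    intro γ
    rw [← vball (pl (R γ)) (r γ) (hr0 γ)]
    exact measure_sdiff_null (measure_singleton _)
  have hsum : ∑ γ ∈ T, volume (Bs γ) ≤ volume (Metric.closedBall (0 : ℂ) ρ0) := by
    rw [← measure_biUnion_finset hdis (fun γ _ => hBm γ)]
    exact measure_mono (iUnion₂_subset hin)
  rw [vcball 0 ρ0 hρ0.le] at hsum
  simp only [hBv] at hsum
  rw [← ENNReal.ofReal_sum_of_nonneg (fun γ _ => by positivity), ENNReal.ofReal_le_ofReal_iff (by positivity),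
    ← Finset.sum_mul] at hsum
  have hsum2 : ∑ γ ∈ T, r γ ^ 2 ≤ ρ0 ^ 2 := le_of_mul_le_mul_right hsum Real.pi_pos
  have hterm : ∀ γ ∈ T, (‖R γ 1 0‖ ^ 4)⁻¹ = 4 * ρ0 ^ 2 * r γ ^ 2 := by
    intro γ hγT
    have hc : 0 < ‖R γ 1 0‖ := norm_pos_iff.2 (hbasic γ (hT1 γ hγT)).1
    show (‖R γ 1 0‖ ^ 4)⁻¹ = 4 * ρ0 ^ 2 * (1 / (2 * ρ0 * ‖R γ 1 0‖ ^ 2)) ^ 2
    field_simp
    norm_num
  rw [Finset.sum_congr rfl hterm, ← Finset.mul_sum]
  calc 4 * ρ0 ^ 2 * ∑ γ ∈ T, r γ ^ 2 ≤ 4 * ρ0 ^ 2 * ρ0 ^ 2 := mul_le_mul_of_nonneg_left hsum2 (by positivity)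
    _ = 4 * ρ0 ^ 4 := by ring

end Pool.Agent.Helper66.QE
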